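import Pool.Agent.helper12.LE.SpecB

set_option autoImplicit false

namespace Pool.Agent.LE

open Pool.Agent.helper58.DC Pool.Agent.DI Pool.Agent.GR Pool.Agent.OB Pool.Agent.DR Pool.Agent.FI Pool.Agent.FI3 Pool.Agent.FI4 Pool.Agent.FI4C Pool.Agent.FI4B

theorem KZS_bij {G : Type} [Group G] [Finite G] (p : ℕ) (hp : p.Prime) (K : Subgroup G) (hK : IsPGroup p K)
    (s : ℕ) (hs : ¬ p ∣ s) : Set.BijOn (fun k : G => k ^ s) (K : Set G) (K : Set G) := by
  have : Fact p.Prime := ⟨hp⟩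
  obtain ⟨n, hn⟩ := (IsPGroup.iff_card).mp hK
  have hcop : (Nat.card K).Coprime s := by
    rw [hn]
    exact Nat.Coprime.pow_left n ((Nat.Prime.coprime_iff_not_dvd hp).mpr hs)
  refine ⟨?_, ?_, ?_⟩
  · intro k hk
    exact K.pow_mem hk s
  · intro k hk k' hk' h
    have h1 : (powCoprime hcop) ⟨k, hk⟩ = (powCoprime hcop) ⟨k', hk'⟩ := by
      simp only [powCoprime_apply]
      exact Subtype.ext (by simpa using h)
    have h2 := (powCoprime hcop).injective h1
    exact congrArg Subtype.val h2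
  · intro k hk
    obtain ⟨k', hk'⟩ := (powCoprime hcop).surjective ⟨k, hk⟩
    refine ⟨(k' : G), k'.2, ?_⟩
    have := congrArg Subtype.val hk'
    simpa [powCoprime_apply] using this

theorem KZS (hDP2 : DP2_stmt) (hGRG : GRG_stmt) : KZS_stmt := by
  intro p M hS hp2 G _ _ D x θ χ hL ε hε h g K u hK m hm ψ hψ hPR s hs
  have hp := hS.pr
  have hps : ¬ p ∣ s := by
    intro hd
    have h1 : (s % p) = 1 % p := hs
    rw [Nat.mod_eq_zero_of_dvd hd, Nat.mod_eq_of_lt hp.one_lt] at h1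
    omega
  have hD : IsPGroup p D := hL.rt.dfa.pgrp
  have hKp : IsPGroup p K := hD.to_le hK.le
  have hcom := hL.rt.com
  symm
  unfold ZK
  refine finsum_mem_eq_of_bijOn (fun k : G => k ^ s) (KZS_bij p hp K hKp s hps) ?_
  intro k hk
  have hk' : k ∈ K := hk
  have huD : u * k ∈ D := D.mul_mem hK.mem (hK.le hk')
  have hreg : u * k ∈ RG M D θ := hK.reg k hk'
  have hcomm : Commute u k := hcom u hK.mem k (hK.le hk')
  have h1 : u ^ s * k ^ s = (u * k) ^ s := (hcomm.mul_pow s).symm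
  have hPEl : PEl p (u * k) := by
    obtain ⟨n, hn⟩ := hD ⟨u * k, huD⟩
    refine ⟨n, ?_⟩
    have := congrArg Subtype.val hn
    simpa using this
  have hgood := (hGRG p M hS hp2 G D x θ χ hL (u * k) hreg).1
  have h2 := hDP2 p M hS G D θ m hm (u * k) hPEl hgood ψ hψ hPR s hs
  rw [h1, h2, hε.pw (u * k) hreg s hps]

end Pool.Agent.LE
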